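import Pool.Agent.V11151.Explicit

/-!
# A spectral polytope with trivial symmetry group
-/

namespace Pool.Agent.Results.MP_c2491a_co.Asymmetric

open Pool.Agent.V11151.Poly Pool.Agent.V11151.Facets Pool.Agent.V11151.Explicit

open Classical in
/-- The adjacency matrix of the edge-graph of the polytope with vertices `p 0, p 1, ...`: `i` and
`j` are adjacent if the segment between `p i` and `p j` is an (exposed) face. -/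
noncomputable def edgeMatrix {n d : ℕ} (p : Fin n → Fin d → ℝ) : Matrix (Fin n) (Fin n) ℝ :=
  Matrix.of fun i j =>
    if i ≠ j ∧ IsExposed ℝ (convexHull ℝ (Set.range p)) (segment ℝ (p i) (p j)) then 1 else 0

/-- The convex hull of the points `p i` is a spectral polytope whose vertices are exactly the
(distinct) points `p i`: the columns of the matrix with rows `p i` form a basis of an eigenspace
of the adjacency matrix of the edge-graph. -/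
structure IsSpectral {n d : ℕ} (p : Fin n → Fin d → ℝ) : Prop where
  inj : Function.Injective p
  vertices : (convexHull ℝ (Set.range p)).extremePoints ℝ = Set.range p
  eigen : ∃ θ : ℝ, LinearIndependent ℝ (fun k : Fin d => fun i : Fin n => p i k) ∧
    Submodule.span ℝ (Set.range fun k : Fin d => fun i : Fin n => p i k) =
      Module.End.eigenspace (Matrix.toLin' (edgeMatrix p)) θ

/-! ### The data -/

/-- the first endpoints of the edges of the graph `H` -/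
def Ea : Fin 22 → Fin 15 := ![2, 0, 1, 0, 1, 1, 4, 3, 3, 2, 8, 10, 11, 0, 9, 3, 8, 5, 7, 6, 4, 4]

/-- the second endpoints of the edges of the graph `H` -/
def Eb : Fin 22 → Fin 15 := ![6, 12, 2, 9, 8, 13, 5, 7, 6, 13, 12, 14, 13, 5, 14, 12, 10, 10, 11, 9, 11, 7]

/-- the vertices of the polytope -/
def M : Fin 22 → Fin 7 → ℤ := ![![1, 0, 0, -1, -1, 0, -1], ![0, 1, 2, 0, 1, -1, -1], ![-1, 0, -1, 0, 0, 0, 1], ![0, -1, -1, 0, -1, 0, 0], ![1, 0, 2, 0, 1, -1, -1], ![0, 0, -1, 0, -1, 1, 0], ![0, 0, 0, 0, 0, -1, -1], ![0, 0, 0, -1, 0, 0, -1], ![-1, 0, 0, 1, 0, 0, 1], ![0, 0, 1, 1, 1, 0, 0], ![-1, -1, -2, 0, -1, 1, 1], ![0, -1, -1, 0, 0, 0, 0], ![0, 0, 0, -1, 0, -1, 0], ![0, 0, -1, 0, 0, 1, 1], ![0, 1, 1, 0, 0, 0, 0], ![1, 0, 0, 0, 0, 0, 0], ![0, 1, 0, 0, 0, 0, 0], ![0, 0, 1, 0, 0, 0, 0], ![0, 0, 0, 1, 0, 0, 0], ![0, 0, 0, 0, 1, 0, 0], ![0,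 0, 0, 0, 0, 1, 0], ![0, 0, 0, 0, 0, 0, 1]]

/-- the rows of `M` that form the identity matrix -/
def fr : Fin 7 → Fin 22 := ![15, 16, 17, 18, 19, 20, 21]

/-- the edges of the polytope: first endpoint -/
def e1 : Fin 188 → Fin 22 := ![0, 0, 0, 0, 0, 0, 0, 0, 0, 0, 0, 0, 0, 0, 0, 0, 0, 1, 1, 1, 1, 1, 1, 1, 1, 1, 1, 1, 1, 1, 1, 1, 1, 2, 2, 2, 2, 2, 2, 2, 2, 2, 2, 2, 2, 2, 2, 2, 2, 3, 3, 3, 3, 3, 3, 3, 3, 3, 3, 3, 3, 3, 3, 3, 4, 4, 4, 4, 4, 4, 4, 4, 4, 4, 4, 4, 4, 4, 5, 5, 5, 5, 5, 5, 5, 5, 5, 5, 5, 5, 5, 5, 6, 6, 6, 6, 6, 6, 6, 6, 6, 6, 6, 7, 7, 7, 7, 7, 7, 7, 7, 7, 7, 8, 8, 8, 8, 8, 8, 8, 8, 8, 8, 8, 9, 9, 9, 9, 9, 9, 9, 9, 9, 9, 9, 10, 10, 10, 10, 10, 10, 10, 10, 10, 11, 11, 11, 11, 11, 11, 11, 12, 12, 12, 12, 12, 12, 12, 13, 13, 13, 13, 13, 13, 13, 14, 14, 14, 14, 14, 14, 15, 15, 15, 15, 15, 15, 16, 16, 16, 16, 17, 17, 17, 17, 18,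 19, 19]

/-- the edges of the polytope: second endpoint -/
def e2 : Fin 188 → Fin 22 := ![1, 3, 4, 5, 6, 7, 10, 11, 12, 13, 14, 15, 16, 17, 18, 20, 21, 2, 4, 5, 6, 7, 8, 9, 11, 12, 14, 16, 17, 18, 19, 20, 21, 3, 6, 7, 8, 10, 11, 12, 13, 14, 15, 16, 17, 18, 19, 20, 21, 4, 5, 6, 7, 8, 9, 10, 11, 12, 15, 16, 17, 18, 20, 21, 6, 7, 8, 9, 11, 12, 13, 14, 15, 17, 18, 19, 20, 21, 6, 7, 8, 10, 11, 13, 14, 15, 16, 17, 18, 19, 20, 21, 7, 8, 9, 10, 11, 12, 14, 15, 16, 18, 19, 9, 10, 11, 12, 13, 14, 16, 17, 19, 20, 9, 10, 11, 12, 13, 14, 16, 17, 18, 20, 21, 10, 11, 13, 14, 15, 16, 17, 18, 19, 20, 21, 11, 12, 13, 14, 17, 18, 19, 20, 21, 12, 13, 15, 18, 19, 20, 21, 13, 14, 15, 16, 17, 19, 21, 14, 15, 16, 18, 19, 20, 21, 15, 16, 17, 18, 20, 21, 16, 17, 18, 19, 20, 21, 18, 19, 20, 21, 18, 19, 20, 21, 19, 20, 21]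

/-- functionals exposing the edges -/
def tf : Fin 188 → Fin 7 → ℤ := ![![0, 2, 1, 0, -2, 0, -2], ![0, -1, 1, 0, -3, -1, 0], ![1, -1, 1, 0, -1, 0, 0], ![0, 1, 0, 0, -1, 1, -1], ![0, 1, -1, 0, -1, -1, -1], ![0, 0, 0, -1, 0, 1, -1], ![-1, -1, 1, -2, -2, 1, 0], ![2, -2, -1, -1, 1, 0, -1], ![1, 0, 0, -1, -1, -1, 1], ![1, 0, 0, -2, 0, 1, 1], ![0, 1, 1, 0, -2, 0, 0], ![3, 1, -1, 0, -1, 0, 1], ![2, 3, -1, 0, -1, -1, 0], ![-1, -1, 2, -1, -2, 1, 0], ![2, 1, 0, 4, -4, -1, -2], ![1, -1, 1, -1, 0, 2, 0], ![1, 0, 1, -1, -2, 0, 2], ![-2, 1, 0, -1, 1, 0, 0], ![0, 0, 1, 0, 0, 0, 0], ![-3, 1, 1, 2, -2, 2, -4], ![-1, 0, 0, 1, 0, -1, -1], ![-2, -1, 1, -1, 1, 1, -2], ![-2, 0, 1, 0, 0, 0, 0], ![-1, 1, 0, 1, 1, 1, -1], ![-9, -8, 2, -2, 5, -2, -3], ![-1, 1, 0, -1, 0, -1, 0], ![-1, 1, 1, 0, -1, 0, 0], ![0, 2, -1, 0, 1, 0, -1], ![-2, -1, 2, -1, -1, 0, 0],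 ![0, 2, 0, 3, -1, 0, -2], ![-1, 1, -1, 0, 2, 0, -1], ![-2, 1, 1, 0, 1, 3, -2], ![0, 1, 2, -2, 2, -1, 4], ![1, 1, -3, 2, -2, -5, 2], ![-1, 1, -2, 0, 1, -1, -1], ![-2, 1, -1, -1, 1, 0, -1], ![-1, 0, 0, 0, 0, -1, 1], ![-2, 0, 0, -1, 0, 0, 0], ![-1, -1, -2, 0, 2, -2, 0], ![-1, 1, -1, -1, 1, -2, 1], ![0, 1, -1, -1, 1, 0, 1], ![-3, 2, 1, -2, -1, 0, 1], ![3, 2, -4, 2, 1, -4, 2], ![-1, 2, -1, 0, 0, -1, 0], ![-5, -2, 4, -5, 1, 2, 3], ![1, 2, -4, 3, 1, -2, 0], ![-1, 1, -1, 0, 2, 0, 0], ![-4, 1, 1, -2, 2, 3, 0], ![0, 1, 0, -1, 0, -1, 3], ![0, -2, 1, 0, -1, -1, 0], ![0, 0, 0, 2, -3, 0, -1], ![0, -1, 0, 1, -1, -1, -1], ![-2, -3, 1, -1, -1, 0, -2], ![0, -1, 1, 1, -2, -1, 1], ![0, -5, 2, 3, -1, 1, -1], ![0, -1, 0, 0, -1, 0, 0], ![0, -2, 0, 0, 0, -1, 0], ![0, -1, 0, 0, -1, -2, 1], ![2, -1, 0, 1, -1, -1, 1], ![2, 4, -3, 3, -5, -5, 2], ![-1, -2, 2, 0,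 -2, 0, 0], ![1, -1, 0, 2, -1, -1, 0], ![0, -4, 2, 1, -1, 3, -2], ![1, -1, 1, 0, -2, -1, 2], ![0, -1, 0, 1, 0, -2, -1], ![0, -2, 1, -2, 1, 1, -1], ![0, -2, 3, 2, -2, -2, 2], ![1, -1, 0, 1, 1, 0, 0], ![1, -2, 0, 0, 1, 0, 0], ![0, -1, 1, -1, 0, -1, 1], ![3, -2, 2, -3, 3, 3, 3], ![2, 1, 3, 0, -2, 0, 2], ![4, 0, 1, 0, 0, 0, 2], ![0, -2, 2, -1, -1, 0, 1], ![1, -1, 1, 4, -2, -2, -1], ![0, -1, 0, -1, 2, 0, 0], ![1, -1, 1, -1, 1, 2, 0], ![1, -1, 1, 0, 0, -1, 2], ![-1, 1, -1, 1, -1, 0, -2], ![-1, 1, -1, 0, 0, 1, -2], ![-2, 1, 1, 2, -3, 1, -1], ![-1, 0, 0, 0, -1, 1, -1], ![1, 0, -2, 1, 1, 1, -2], ![1, 1, -1, 0, 0, 1, 0], ![-1, 2, 1, 1, -3, 1, 0], ![3, 1, -1, 2, -1, 1, 0], ![0, 2, -2, 1, 0, 0, -1], ![-1, -1, 3, 1, -4, 2, 0], ![0, 1, 0, 2, -1, 1, -1], ![1, 2, -4, 2, 3, 2, -4], ![0, 0, 0, 0, 0, 2, -1], ![2, 1, 1, 1, -4, 0, 3], ![-1, 0, -1, 0, 0,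 0, -2], ![-2, 0, 0, 1, -1, -1, -1], ![-1, -1, -1, 2, 2, 0, -3], ![-2, 0, -1, 1, 0, 0, -2], ![0, -1, -1, 1, 1, -1, -1], ![0, 0, -1, 0, 0, -2, 0], ![-2, 3, 1, 2, -6, -3, -1], ![2, 1, -2, 1, 0, -2, 0], ![0, 2, -2, 1, 0, -1, -1], ![0, 1, -1, 2, 0, -1, -1], ![0, 1, -2, 1, 2, -1, -1], ![-4, -3, 0, 1, 3, 3, -5], ![-1, -1, 0, -1, 0, 1, -1], ![0, -1, -1, -1, 1, 0, -1], ![-1, 0, 0, -2, 0, 0, 0], ![0, 1, -1, -2, 1, 1, 0], ![-2, 1, 1, -2, -1, 1, 0], ![-1, 3, -2, -1, 1, 1, -2], ![-3, -2, 3, -3, -1, 2, 0], ![0, 0, -1, -1, 2, 1, -1], ![-1, -1, 1, -1, 1, 2, -1], ![-1, -1, 1, 1, 0, 0, 0], ![-2, -1, 1, 0, -1, 0, 0], ![-1, -3, 0, 1, 1, -2, 1], ![-1, -1, 1, 0, -2, -3, 2], ![0, 1, 0, 1, 0, 1, 1], ![-1, 1, 1, 0, -2, 0, 1], ![0, 3, -1, 2, -1, -1, 1], ![-1, -1, 2, 0, -1, 0, 1], ![0, 0, 0, 2, -1, -1, 0], ![-3, 0, 2, 1, 0, 4, 0], ![0, 0, 1, 0, -1, -1, 2], ![-2,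 -3, 1, 1, 1, 2, -1], ![0, -3, 0, 1, 2, 1, -1], ![1, 0, 0, 1, 1, 1, 1], ![1, 2, 1, 2, 0, 2, 1], ![3, 0, 0, 2, 1, 1, 1], ![1, 4, -2, 3, 3, 1, -1], ![-2, -3, 4, 0, 0, 3, 1], ![0, 0, 0, 2, 0, 0, -1], ![0, 0, 0, 0, 2, 1, 0], ![0, -1, 0, 1, 1, 2, -1], ![2, -2, 1, 1, 2, 0, 4], ![-1, -2, 0, 0, 1, 0, 0], ![-1, -2, 1, -3, -1, 0, 1], ![0, 0, 0, -1, 0, 1, 1], ![-3, 1, 2, -2, -3, 1, 1], ![-1, -2, 2, -1, -1, 1, 1], ![0, 0, -2, 3, 0, 0, -1], ![-2, -1, -1, -1, 3, 2, -1], ![-1, -1, 1, -1, 0, 2, 0], ![0, -1, 1, -1, -1, 0, 2], ![0, -1, -1, -1, 1, -1, 0], ![2, -1, -2, 0, 2, 0, 1], ![3, -1, -2, 1, 1, -1, 0], ![1, 0, -2, 2, 1, 0, -1], ![0, -1, -1, 0, 2, 0, -1], ![1, -3, 0, 0, 2, 3, -2], ![1, -2, 0, 0, 1, -1, 2], ![1, 1, -1, -2, 1, 0, 1], ![-1, 2, 1, -2, -2, -1, 2], ![2, 1, -1, 0, 0, -2, 1], ![1, 2, -1, -1, 0, -1, 1], ![-1, -1, 2, -2, -1, 0, 1], ![0, 0, -1,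 -1, 2, -1, 0], ![1, 0, 1, -2, -1, -1, 3], ![1, 2, 1, -1, 0, 2, 2], ![2, 1, -1, 0, 1, 0, 1], ![1, 2, -2, 0, 1, 0, 0], ![1, 1, -2, 2, 1, 0, 0], ![1, 0, -1, -1, 2, 1, 0], ![0, 0, 0, -1, 1, 2, 0], ![1, 0, 0, -1, 0, 0, 2], ![3, 2, 1, 1, -2, 0, 2], ![0, 2, 0, 0, -1, 0, 0], ![-1, 0, 2, -1, -2, 1, 1], ![1, 1, 1, 2, -2, 0, 0], ![-1, 1, 1, -1, 0, 2, 0], ![1, 1, 1, -1, -1, 0, 2], ![2, 2, -1, 1, 0, -1, 0], ![5, -3, 5, 2, -4, 3, 4], ![2, 1, -1, 2, 0, -1, 0], ![4, 1, -3, 0, 4, -1, 0], ![4, -1, 1, 1, 1, 4, 0], ![2, 0, 0, 0, 0, -1, 2], ![1, 2, -1, 2, 0, -1, 0], ![1, 2, -2, 0, 2, 0, -1], ![0, 3, -1, 0, 2, 3, -2], ![2, 3, -1, 0, -1, -2, 3], ![0, -2, 5, 5, -6, 2, -1], ![-3, -3, 3, -4, 3, 2, 2], ![-1, -1, 2, -1, 0, 2, 0], ![0, -1, 2, -1, -1, 0, 2], ![1, 2, -4, 3, 3, 0, -2], ![-1, 0, 0, -1, 3, 3, -1], ![2, -1, 0, -3, 5, -1, 5]]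

/-- their maximal values -/
def tl : Fin 188 → ℤ := ![4, 3, 2, 2, 2, 2, 3, 3, 2, 2, 2, 3, 3, 2, 4, 2, 2, 2, 2, 3, 2, 3, 2, 2, 6, 2, 2, 2, 2, 3, 2, 3, 4, 4, 2, 2, 2, 2, 3, 3, 2, 3, 3, 2, 4, 3, 2, 3, 3, 2, 3, 2, 3, 2, 4, 2, 2, 2, 2, 4, 2, 2, 3, 2, 3, 3, 4, 2, 2, 2, 4, 4, 4, 2, 4, 2, 2, 2, 2, 2, 3, 2, 2, 2, 3, 3, 2, 3, 2, 3, 2, 3, 2, 2, 3, 2, 2, 2, 4, 2, 2, 2, 2, 4, 2, 2, 2, 2, 2, 3, 3, 2, 2, 2, 2, 3, 3, 2, 2, 3, 2, 2, 4, 2, 3, 3, 2, 3, 3, 4, 4, 2, 2, 2, 4, 2, 3, 2, 3, 2, 3, 3, 2, 2, 2, 3, 3, 2, 2, 3, 2, 2, 3, 2, 2, 2, 2, 3, 3, 2, 2, 2, 2, 2, 2, 3, 2, 2, 2, 2, 2, 2, 5, 2, 4, 4, 2, 2, 2, 3, 3, 5, 3, 2, 2, 3, 3, 5]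

/-- the non-edges: first endpoint -/
def n1 : Fin 43 → Fin 22 := ![0, 0, 0, 0, 1, 1, 1, 1, 2, 2, 2, 3, 3, 3, 4, 4, 4, 5, 5, 6, 6, 6, 6, 7, 7, 7, 7, 8, 8, 9, 10, 10, 11, 11, 11, 12, 12, 13, 14, 16, 18, 18, 20]

/-- the non-edges: second endpoint -/
def n2 : Fin 43 → Fin 22 := ![2, 8, 9, 19, 3, 10, 13, 15, 4, 5, 9, 13, 14, 19, 5, 10, 16, 9, 12, 13, 17, 20, 21, 8, 15, 18, 21, 15, 19, 12, 15, 16, 14, 16, 17, 18, 20, 17, 19, 17, 20, 21, 21]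

/-- weights of an affine dependence -/
def nw : Fin 43 → Fin 22 → ℤ := ![![0, 0, 0, 0, 0, 1, 0, 0, 0, 0, 0, 0, 1, 0, 0, 0, 0, 0, 0, 0, 0, 0], ![0, 0, 0, 1, 0, 0, 0, 0, 0, 0, 0, 0, 0, 0, 1, 0, 0, 0, 0, 0, 0, 0], ![0, 0, 0, 0, 1, 1, 0, 0, 0, 0, 0, 0, 0, 0, 0, 0, 0, 0, 0, 0, 0, 0], ![0, 0, 0, 0, 0, 0, 0, 1, 0, 0, 0, 0, 0, 0, 0, 1, 0, 0, 0, 0, 0, 0], ![0, 0, 0, 0, 0, 0, 1, 0, 0, 0, 0, 0, 0, 0, 0, 0, 0, 1, 0, 0, 0, 0], ![0, 0, 0, 0, 0, 0, 0, 1, 1, 0, 0, 0, 0, 0, 0, 0, 0, 0, 0, 0, 0, 0], ![0, 0, 0, 0, 0, 0, 0, 0, 0, 0, 0, 0, 0, 0, 1, 0, 0, 0, 0, 1, 0, 0], ![0, 0, 0, 0, 1, 0, 0, 0, 0, 0, 0, 0, 0, 0, 0, 0, 1, 0, 0, 0, 0, 0], ![0, 0, 0, 0, 0, 0, 0, 0, 0, 1, 0, 0, 1, 0, 0, 0, 0, 0, 0, 0, 0, 0], ![0, 0, 0, 0, 0, 0, 0, 0, 0, 0, 1, 0, 0, 0, 0, 0, 1, 0, 0, 0, 0, 0], ![0, 0, 0, 0, 0, 0, 0, 0, 1, 0, 0, 0, 0, 0, 0, 0, 0, 0, 0, 1, 0, 0], ![0, 0, 0,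 0, 0, 0, 0, 0, 0, 0, 1, 0, 0, 0, 0, 1, 0, 0, 0, 0, 0, 0], ![1, 0, 0, 0, 0, 0, 0, 0, 1, 0, 0, 0, 0, 0, 0, 0, 0, 0, 0, 0, 0, 0], ![1, 1, 1, 1, 1, 1, 1, 1, 1, 1, 1, 23, 1, 1, 1, 1, 1, 1, 1, 1, 1, 1], ![1, 0, 0, 0, 0, 0, 0, 0, 0, 1, 0, 0, 0, 0, 0, 0, 0, 0, 0, 0, 0, 0], ![0, 0, 0, 0, 0, 0, 0, 0, 0, 0, 0, 1, 0, 0, 0, 0, 0, 1, 0, 0, 0, 0], ![0, 1, 0, 0, 0, 0, 0, 0, 0, 0, 0, 0, 0, 0, 0, 1, 0, 0, 0, 0, 0, 0], ![0, 0, 0, 0, 0, 0, 0, 0, 0, 0, 0, 0, 0, 0, 0, 0, 0, 0, 1, 0, 1, 0], ![1, 0, 1, 0, 0, 0, 0, 0, 0, 0, 0, 0, 0, 0, 0, 0, 0, 0, 0, 0, 0, 0], ![0, 0, 0, 0, 0, 0, 0, 0, 0, 0, 0, 1, 0, 0, 0, 0, 1, 0, 0, 0, 0, 0], ![0, 1, 0, 1, 0, 0, 0, 0, 0, 0, 0, 0, 0, 0, 0, 0, 0, 0, 0, 0, 0, 0], ![0, 0, 0, 0, 0, 0, 0, 1, 0, 0, 0, 0, 0, 0, 0, 0, 0, 0, 1, 0, 0, 0], ![0, 0, 0, 0, 0, 0, 0, 0, 0, 0, 0, 0, 1, 0, 0, 0, 0, 0, 1, 0, 0, 0], ![0, 1, 0, 0, 0, 0, 0, 0,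 0, 0, 1, 0, 0, 0, 0, 0, 0, 0, 0, 0, 0, 0], ![1, 0, 0, 0, 0, 0, 0, 0, 0, 0, 0, 0, 0, 0, 0, 0, 0, 0, 0, 1, 0, 0], ![0, 0, 0, 0, 0, 0, 1, 0, 0, 0, 0, 0, 0, 0, 0, 0, 0, 0, 0, 0, 1, 0], ![0, 0, 0, 0, 0, 0, 0, 0, 0, 0, 0, 0, 1, 0, 0, 0, 0, 0, 0, 0, 1, 0], ![0, 0, 0, 0, 0, 0, 0, 0, 0, 0, 0, 0, 0, 0, 0, 0, 0, 0, 1, 0, 0, 1], ![0, 0, 1, 0, 0, 0, 0, 0, 0, 1, 0, 0, 0, 0, 0, 0, 0, 0, 0, 0, 0, 0], ![0, 0, 1, 0, 1, 0, 0, 0, 0, 0, 0, 0, 0, 0, 0, 0, 0, 0, 0, 0, 0, 0], ![0, 0, 0, 1, 0, 0, 0, 0, 0, 0, 0, 0, 0, 1, 0, 0, 0, 0, 0, 0, 0, 0], ![0, 0, 1, 0, 0, 1, 0, 0, 0, 0, 0, 0, 0, 0, 0, 0, 0, 0, 0, 0, 0, 0], ![2, 2, 2, 2, 2, 2, 2, 2, 2, 2, 2, 2, 2, 2, 2, 2, 2, 2, 2, 2, 2, 2], ![0, 0, 0, 0, 0, 0, 1, 0, 0, 0, 0, 0, 0, 1, 0, 0, 0, 0, 0, 0, 0, 0], ![0, 0, 0, 0, 1, 0, 0, 0, 0, 0, 1, 0, 0, 0, 0, 0, 0, 0, 0, 0, 0, 0], ![0, 0, 0, 0, 0, 0, 1, 0, 0, 0, 0, 0, 0, 0,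 0, 0, 0, 0, 0, 0, 0, 1], ![0, 0, 0, 0, 0, 0, 0, 1, 0, 0, 0, 0, 0, 0, 0, 0, 0, 0, 0, 0, 0, 1], ![0, 0, 0, 0, 0, 0, 0, 0, 0, 0, 0, 0, 0, 0, 0, 0, 0, 0, 0, 0, 1, 1], ![0, 1, 0, 0, 0, 0, 0, 0, 0, 0, 0, 0, 0, 1, 0, 0, 0, 0, 0, 0, 0, 0], ![1, 1, 1, 1, 1, 1, 1, 1, 1, 1, 1, 1, 1, 1, 23, 1, 1, 1, 1, 1, 1, 1], ![0, 0, 0, 0, 0, 1, 0, 0, 0, 1, 0, 0, 0, 0, 0, 0, 0, 0, 0, 0, 0, 0], ![0, 0, 0, 0, 0, 0, 0, 0, 1, 0, 0, 0, 0, 0, 0, 1, 0, 0, 0, 0, 0, 0], ![0, 0, 0, 0, 0, 0, 0, 0, 0, 0, 0, 0, 0, 1, 0, 0, 0, 1, 0, 0, 0, 0]]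

/-- half the sum of the weights -/
def nl : Fin 43 → ℤ := ![1, 1, 1, 1, 1, 1, 1, 1, 1, 1, 1, 1, 1, 22, 1, 1, 1, 1, 1, 1, 1, 1, 1, 1, 1, 1, 1, 1, 1, 1, 1, 1, 22, 1, 1, 1, 1, 1, 1, 22, 1, 1, 1]

/-- a vertex with positive weight -/
def nk : Fin 43 → Fin 22 := ![5, 3, 4, 7, 6, 7, 14, 4, 9, 10, 8, 10, 0, 0, 0, 11, 1, 18, 0, 11, 1, 7, 12, 1, 0, 6, 12, 18, 2, 2, 3, 2, 0, 6, 4, 6, 7, 20, 1, 0, 5, 8, 13]

/-- certificate for the eigenspace -/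
def R : Fin 22 → Fin 22 → ℤ := ![![-32, 0, 17, 1, 0, -16, 1, -10, 22, 16, 1, 1, 1, 0, 0, 0, 0, 0, 0, 0, 0, 0], ![0, -66, 33, 33, -66, 33, -11, 0, 0, -33, 66, 11, 0, 22, -22, 0, 0, 0, 0, 0, 0, 0], ![17, 33, -41, -16, 44, -8, 6, 6, -11, 19, -38, -5, -5, -11, 11, 0, 0, 0, 0, 0, 0, 0], ![1, 33, -16, -32, 33, -16, 1, 1, 0, 16, -32, -10, 1, 0, 22, 0, 0, 0, 0, 0, 0, 0], ![0, -66, 44, 33, -88, 44, -11, 0, 0, -44, 77, 11, 0, 22, -22, 0, 0, 0, 0, 0, 0, 0], ![-16, 33, -8, -16, 44, -41, 6, -5, 11, 30, -38, -5, 6, -11, 11, 0, 0, 0, 0, 0, 0, 0], ![1, -11, 6, 1, -11, 6, -10, 1, 0, -6, 12, 1, 1, 11, 0, 0, 0, 0, 0, 0, 0, 0], ![-10, 0, 6, 1, 0, -5, 1, -10, 11, 5, 1, 1, 1, 0, 0, 0, 0, 0, 0, 0, 0, 0], ![22, 0, -11, 0, 0, 11, 0, 11, -22, -11, 0, 0, 0, 0, 0, 0, 0, 0, 0, 0, 0, 0], ![16, -33, 19, 16, -44, 30, -6, 5, -11, -41, 38, 5, 5, 11, -11, 0, 0, 0, 0,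 0, 0, 0], ![1, 66, -38, -32, 77, -38, 12, 1, 0, 38, -76, -10, 1, -22, 22, 0, 0, 0, 0, 0, 0, 0], ![1, 11, -5, -10, 11, -5, 1, 1, 0, 5, -10, -10, 1, 0, 11, 0, 0, 0, 0, 0, 0, 0], ![1, 0, -5, 1, 0, 6, 1, 1, 0, 5, 1, 1, -10, 0, 0, 0, 0, 0, 0, 0, 0, 0], ![0, 22, -11, 0, 22, -11, 11, 0, 0, 11, -22, 0, 0, -22, 0, 0, 0, 0, 0, 0, 0, 0], ![0, -22, 11, 22, -22, 11, 0, 0, 0, -11, 22, 11, 0, 0, -22, 0, 0, 0, 0, 0, 0, 0], ![0, 0, 0, 0, 0, 0, 0, 0, 0, 0, 0, 0, 0, 0, 0, 0, 0, 0, 0, 0, 0, 0], ![0, 0, 0, 0, 0, 0, 0, 0, 0, 0, 0, 0, 0, 0, 0, 0, 0, 0, 0, 0, 0, 0], ![0, 0, 0, 0, 0, 0, 0, 0, 0, 0, 0, 0, 0, 0, 0, 0, 0, 0, 0, 0, 0, 0], ![0, 0, 0, 0, 0, 0, 0, 0, 0, 0, 0, 0, 0, 0, 0, 0, 0, 0, 0, 0, 0, 0], ![0, 0, 0, 0, 0, 0, 0, 0, 0, 0, 0, 0, 0, 0, 0, 0, 0, 0, 0, 0, 0, 0], ![0, 0, 0, 0, 0, 0, 0, 0, 0, 0, 0, 0, 0, 0, 0, 0, 0, 0, 0, 0, 0, 0], ![0, 0, 0, 0, 0, 0,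 0, 0, 0, 0, 0, 0, 0, 0, 0, 0, 0, 0, 0, 0, 0, 0]]

/-- walk counts -/
def W : Fin 11 → Fin 22 → ℕ := ![![1, 1, 1, 1, 1, 1, 1, 1, 1, 1, 1, 1, 1, 1, 1, 1, 1, 1, 1, 1, 1, 1], ![4, 4, 4, 4, 4, 4, 4, 4, 4, 4, 4, 3, 4, 4, 3, 4, 4, 4, 4, 4, 4, 4], ![16, 16, 16, 15, 16, 16, 16, 16, 16, 16, 16, 11, 16, 16, 11, 16, 15, 15, 16, 15, 16, 16], ![63, 63, 64, 58, 63, 64, 63, 64, 63, 64, 63, 41, 64, 62, 41, 64, 58, 58, 64, 58, 64, 64], ![249, 247, 254, 224, 249, 255, 248, 255, 249, 255, 248, 157, 256, 242, 157, 253, 225, 224, 256, 225, 255, 255], ![983, 967, 1008, 871, 982, 1014, 976, 1013, 982, 1014, 974, 606, 1021, 943, 606, 999, 878, 872, 1021, 879, 1015, 1014], ![3883, 3787, 3993, 3395, 3874, 4025, 3844, 4016, 3874, 4026, 3826, 2356, 4064, 3686, 2356, 3936, 3434, 3403, 4063, 3442, 4032, 4025], ![15335, 14843, 15808, 13271, 15278, 15957, 15146, 15898,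 15277, 15965, 15031, 9193, 16146, 14429, 9193, 15503, 13459, 13320, 16137, 13508, 15996, 15955], ![60558, 58234, 62535, 51973, 60255, 63197, 59700, 62872, 60244, 63246, 59083, 35972, 64055, 56580, 35972, 61049, 52822, 52227, 63995, 53076, 63384, 63177], ![239101, 228685, 247256, 203862, 237637, 250091, 235368, 248465, 237555, 250345, 232360, 141021, 253822, 222134, 141021, 240433, 207537, 205074, 253488, 208747, 250927, 249951], ![943903, 898789, 977174, 800587, 937244, 989060, 928086, 981427, 936746, 990270, 914292, 553632, 1004851, 872989, 553630, 947065, 816092, 806060, 1003165, 821539, 992629, 988248]]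

/-- the points -/
def p (i : Fin 22) : Fin 7 → ℝ := pt (M i)

/-- disjointness of edges of `H` -/
def adjG (i j : Fin 22) : Bool :=
  !(Ea i == Ea j || Ea i == Eb j || Eb i == Ea j || Eb i == Eb j)

/-- adjacency of distinct edges of `H` -/
def adjL (i j : Fin 22) : Bool := !(i == j) && !(adjG i j)

lemma edge_data : ∀ r g, idot (tf r) (M g) ≤ tl r ∧
    (idot (tf r) (M g) = tl r ↔ (g = e1 r ∨ g = e2 r)) := by decide +kernel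

lemma edge_all : ∀ i j, adjG i j = true →
    ∃ r, (e1 r = i ∧ e2 r = j) ∨ (e1 r = j ∧ e2 r = i) := by decide +kernel

lemma nonedge_all : ∀ i j, i ≠ j → adjG i j = false →
    ∃ r, (n1 r = i ∧ n2 r = j) ∨ (n1 r = j ∧ n2 r = i) := by decide +kernel

lemma adjG_ne : ∀ i, adjG i i = false := by decide +kernel

lemma nonedge_data : ∀ r, (∀ k, ∑ g, nw r g * M g k = nl r * (M (n1 r) k + M (n2 r) k)) ∧
    (∀ g, 0 ≤ nw r g) ∧ ∑ g, nw r g = 2 * nl r ∧ 0 < nw r (nk r) ∧ nk r ≠ n1 r ∧ nk r ≠ n2 r := by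
  decide +kernel

lemma M_inj : ∀ i j, M i = M j → i = j := by decide +kernel

lemma vert_check : ∀ i k : Fin 22, k ≠ i → ∃ r, idot (-tf r) (M i) = -tl r ∧
    idot (-tf r) (M k) ≠ -tl r := by decide +kernel

lemma vert_le : ∀ r g, -tl r ≤ idot (-tf r) (M g) := by decide +kernel

lemma vert (i : Fin 22) : p i ∈ (convexHull ℝ (Set.range p)).extremePoints ℝ :=
  extreme_of_cert M (fun r => -tf r) (fun r => -tl r) vert_le vert_check i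

lemma p_inj : Function.Injective p := by
  intro i j h
  exact M_inj i j (pt_inj h)

lemma vertices : (convexHull ℝ (Set.range p)).extremePoints ℝ = Set.range p := by
  apply Set.Subset.antisymm extremePoints_convexHull_subset
  rintro _ ⟨i, rfl⟩
  exact vert i

lemma edge_exposed (r : Fin 188) :
    IsExposed ℝ (convexHull ℝ (Set.range p)) (segment ℝ (p (e1 r)) (p (e2 r))) := by
  rw [← convexHull_pair]
  refine exposed_of_functional (fn (tf r)) (tl r) ?_ ?_ ?_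
  · rintro x (rfl | rfl)
    · exact ⟨_, rfl⟩
    · exact ⟨_, rfl⟩
  · rintro x (rfl | rfl)
    · have h := ((edge_data r (e1 r)).2).2 (Or.inl rfl)
      unfold p
      rw [fn_pt, h]
    · have h := ((edge_data r (e2 r)).2).2 (Or.inr rfl)
      unfold p
      rw [fn_pt, h]
  · rintro _ ⟨g, rfl⟩ hg
    have h1 := (edge_data r g).1
    have h2 : idot (tf r) (M g) ≠ tl r := by
      intro h
      rcases (edge_data r g).2.1 h with h' | h'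
      · exact hg (Or.inl (by rw [h']))
      · exact hg (Or.inr (by rw [h']; rfl))
    have h3 := lt_of_le_of_ne h1 h2
    unfold p
    rw [fn_pt]
    exact_mod_cast h3

lemma nonedge (r : Fin 43) :
    ¬ IsExposed ℝ (convexHull ℝ (Set.range p)) (segment ℝ (p (n1 r)) (p (n2 r))) := by
  intro hF
  obtain ⟨h1, h2, h3, h4, h5, h6⟩ := nonedge_data r
  obtain ⟨l, B, hl1, hl2, _⟩ := face_data hF ⟨_, left_mem_segment ℝ _ _⟩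
  have ha : l (p (n1 r)) = B := by
    have : p (n1 r) ∈ segment ℝ (p (n1 r)) (p (n2 r)) := left_mem_segment ℝ _ _
    rw [hl2] at this
    exact this.2
  have hb : l (p (n2 r)) = B := by
    have : p (n2 r) ∈ segment ℝ (p (n1 r)) (p (n2 r)) := right_mem_segment ℝ _ _
    rw [hl2] at this
    exact this.2
  have hle : ∀ g, l (p g) ≤ B := fun g => hl1 _ (subset_convexHull ℝ _ ⟨g, rfl⟩)
  have hvec : ∑ g, (nw r g : ℝ) • p g = (nl r : ℝ) • (p (n1 r) + p (n2 r)) := by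
    funext k
    simp only [Finset.sum_apply, Pi.smul_apply, Pi.add_apply, smul_eq_mul, p, pt]
    exact_mod_cast h1 k
  have hval := congrArg l hvec
  rw [map_sum, map_smul, map_add, ha, hb] at hval
  simp only [map_smul, smul_eq_mul] at hval
  have hsum : ∑ g, (nw r g : ℝ) * B = 2 * (nl r : ℝ) * B := by
    rw [← Finset.sum_mul]
    have : (∑ g, (nw r g : ℝ)) = 2 * (nl r : ℝ) := by exact_mod_cast h3
    rw [this]
  have hk : l (p (nk r)) = B := by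
    by_contra hne
    have hlt : l (p (nk r)) < B := lt_of_le_of_ne (hle _) hne
    have : ∑ g, (nw r g : ℝ) * l (p g) < ∑ g, (nw r g : ℝ) * B := by
      apply Finset.sum_lt_sum
      · intro g _
        exact mul_le_mul_of_nonneg_left (hle g) (by exact_mod_cast h2 g)
      · exact ⟨nk r, Finset.mem_univ _, mul_lt_mul_of_pos_left hlt (by exact_mod_cast h4)⟩
    rw [hval, hsum] at this
    linarith
  have hmem : p (nk r) ∈ segment ℝ (p (n1 r)) (p (n2 r)) := by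
    rw [hl2]
    exact ⟨subset_convexHull ℝ _ ⟨_, rfl⟩, hk⟩
  rcases (mem_extremePoints_iff_forall_segment.1 (vert (nk r))).2 _
    (subset_convexHull ℝ _ ⟨n1 r, rfl⟩) _ (subset_convexHull ℝ _ ⟨n2 r, rfl⟩) hmem with h | h
  · exact h5 (p_inj h).symm
  · exact h6 (p_inj h).symm

lemma edge_iff (i j : Fin 22) : (i ≠ j ∧
    IsExposed ℝ (convexHull ℝ (Set.range p)) (segment ℝ (p i) (p j))) ↔ adjG i j = true := by
  constructor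
  · rintro ⟨hij, h⟩
    by_contra hadj
    rw [Bool.not_eq_true] at hadj
    obtain ⟨r, ⟨ha, hb⟩ | ⟨ha, hb⟩⟩ := nonedge_all i j hij hadj
    · apply nonedge r
      rw [ha, hb]; exact h
    · apply nonedge r
      rw [ha, hb, segment_symm]; exact h
  · intro h
    constructor
    · rintro rfl
      rw [adjG_ne] at h
      exact absurd h (by decide)
    · obtain ⟨r, ⟨ha, hb⟩ | ⟨ha, hb⟩⟩ := edge_all i j h
      · rw [← ha, ← hb]; exact edge_exposed r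
      · rw [← ha, ← hb, segment_symm]; exact edge_exposed r

/-- the adjacency matrix with integer entries -/
def AZ (i j : Fin 22) : ℤ := if adjG i j = true then 1 else 0

lemma edgeMatrix_eq (i j : Fin 22) : edgeMatrix p i j = (AZ i j : ℝ) := by
  unfold edgeMatrix AZ
  rw [Matrix.of_apply]
  by_cases h : adjG i j = true
  · rw [if_pos ((edge_iff i j).2 h), if_pos h]; simp
  · rw [if_neg (fun h' => h ((edge_iff i j).1 h')), if_neg h]; simp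

lemma col_eigen : ∀ i k, ∑ j, AZ i j * M j k = M i k := by decide +kernel

lemma fr_id : ∀ k l, M (fr k) l = if l = k then 1 else 0 := by decide +kernel

lemma R_cert : ∀ i l, ∑ j, R i j * (AZ j l - if j = l then 1 else 0) =
    11 * ((if i = l then 1 else 0) - ∑ k, M i k * (if fr k = l then 1 else 0)) := by
  decide +kernel

lemma eigen : ∃ θ : ℝ, LinearIndependent ℝ (fun k : Fin 7 => fun i : Fin 22 => p i k) ∧
    Submodule.span ℝ (Set.range fun k : Fin 7 => fun i : Fin 22 => p i k) =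
      Module.End.eigenspace (Matrix.toLin' (edgeMatrix p)) θ := by
  refine ⟨1, ?_, ?_⟩
  · rw [Fintype.linearIndependent_iff]
    intro g hg k
    have h1 := congrFun hg (fr k)
    simp only [Finset.sum_apply, Pi.smul_apply, smul_eq_mul, Pi.zero_apply, p, pt] at h1
    have h2 : ∀ l, g l * (M (fr k) l : ℝ) = if l = k then g l else 0 := by
      intro l
      rw [fr_id]
      split_ifs <;> simp
    simp only [h2, Finset.sum_ite_eq', Finset.mem_univ, if_true] at h1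
    exact h1
  · apply le_antisymm
    · rw [Submodule.span_le]
      rintro _ ⟨k, rfl⟩
      rw [SetLike.mem_coe, Module.End.mem_eigenspace_iff, one_smul]
      funext i
      rw [Matrix.toLin'_apply]
      simp only [Matrix.mulVec, dotProduct, edgeMatrix_eq, p, pt]
      exact_mod_cast col_eigen i k
    · intro x hx
      rw [Module.End.mem_eigenspace_iff, one_smul, Matrix.toLin'_apply] at hx
      have hx' : ∀ j, ∑ l, (AZ j l : ℝ) * x l = x j := by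
        intro j
        have := congrFun hx j
        simp only [Matrix.mulVec, dotProduct, edgeMatrix_eq] at this
        exact this
      have key : ∀ i, x i = ∑ k, (M i k : ℝ) * x (fr k) := by
        intro i
        have h1 : ∑ j, (R i j : ℝ) * ((∑ l, (AZ j l : ℝ) * x l) - x j) = 0 := by
          apply Finset.sum_eq_zero
          intro j _
          rw [hx' j, sub_self, mul_zero]
        have h2 : ∑ j, (R i j : ℝ) * ((∑ l, (AZ j l : ℝ) * x l) - x j) =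
            ∑ l, (∑ j, (R i j : ℝ) * ((AZ j l : ℝ) - if j = l then 1 else 0)) * x l := by
          simp only [Finset.sum_mul]
          rw [Finset.sum_comm]
          apply Finset.sum_congr rfl
          intro j _
          have h3 : x j = ∑ l, (if j = l then (1 : ℝ) else 0) * x l := by
            simp
          conv_lhs => rw [h3]
          rw [← Finset.sum_sub_distrib, Finset.mul_sum]
          apply Finset.sum_congr rfl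
          intro l _
          ring
        have h4 : ∀ l, (∑ j, (R i j : ℝ) * ((AZ j l : ℝ) - if j = l then 1 else 0)) =
            11 * ((if i = l then (1 : ℝ) else 0) -
              ∑ k, (M i k : ℝ) * (if fr k = l then (1 : ℝ) else 0)) := by
          intro l
          have := R_cert i l
          exact_mod_cast this
        rw [h2] at h1
        simp only [h4] at h1
        have h5 : ∑ l, 11 * ((if i = l then (1 : ℝ) else 0) -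
              ∑ k, (M i k : ℝ) * (if fr k = l then (1 : ℝ) else 0)) * x l =
            11 * (x i - ∑ k, (M i k : ℝ) * x (fr k)) := by
          have h6 : ∀ l, 11 * ((if i = l then (1 : ℝ) else 0) -
              ∑ k, (M i k : ℝ) * (if fr k = l then (1 : ℝ) else 0)) * x l =
              11 * ((if i = l then (1 : ℝ) else 0) * x l) -
              11 * ∑ k, (M i k : ℝ) * ((if fr k = l then (1 : ℝ) else 0) * x l) := by
            intro l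
            rw [mul_sub, sub_mul, Finset.mul_sum, Finset.mul_sum, Finset.sum_mul]
            congr 1
            · ring
            · apply Finset.sum_congr rfl
              intro k _
              ring
          simp only [h6]
          rw [Finset.sum_sub_distrib, ← Finset.mul_sum, ← Finset.mul_sum, Finset.sum_comm, mul_sub]
          congr 1
          · simp
          · congr 1
            apply Finset.sum_congr rfl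
            intro k _
            rw [← Finset.mul_sum]
            simp
        rw [h5] at h1
        linarith
      have hxs : x = ∑ k, x (fr k) • (fun i : Fin 22 => p i k) := by
        funext i
        rw [key i]
        simp only [Finset.sum_apply, Pi.smul_apply, smul_eq_mul, p, pt]
        apply Finset.sum_congr rfl
        intro k _
        ring
      rw [hxs]
      exact Submodule.sum_mem _ fun k _ => Submodule.smul_mem _ _ (Submodule.subset_span ⟨k, rfl⟩)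

/-! ### The symmetry group -/

lemma W_zero : ∀ i, W 0 i = 1 := by decide +kernel

lemma W_step : ∀ k : Fin 10, ∀ i, W k.succ i = ∑ j, if adjL i j = true then W k.castSucc j else 0 := by
  decide +kernel

lemma W_distinct : ∀ i j, W 10 i = W 10 j → i = j := by decide +kernel

lemma rigid (π : Equiv.Perm (Fin 22)) (h : ∀ i j, adjG (π i) (π j) = adjG i j) : ∀ i, π i = i := by
  have hL : ∀ i j, adjL (π i) (π j) = adjL i j := by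
    intro i j
    unfold adjL
    rw [h]
    congr 2
    rw [beq_eq_beq]
    exact π.injective.eq_iff
  have hW : ∀ k : Fin 11, ∀ i, W k (π i) = W k i := by
    intro k
    induction k using Fin.induction with
    | zero => intro i; rw [W_zero, W_zero]
    | succ k ih =>
      intro i
      rw [W_step, W_step, ← Equiv.sum_comp π]
      apply Finset.sum_congr rfl
      intro j _
      rw [hL, ih]
  intro i
  exact W_distinct _ _ (hW 10 i)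

lemma exposed_image {d : ℕ} {P F : Set (Fin d → ℝ)} (T : (Fin d → ℝ) ≃ₗ[ℝ] (Fin d → ℝ))
    (h : IsExposed ℝ P F) : IsExposed ℝ (T '' P) (T '' F) := by
  rintro ⟨_, x0, hx0, rfl⟩
  obtain ⟨l, hl⟩ := h ⟨x0, hx0⟩
  refine ⟨LinearMap.toContinuousLinearMap ((l : (Fin d → ℝ) →ₗ[ℝ] ℝ).comp
    (T.symm : (Fin d → ℝ) →ₗ[ℝ] (Fin d → ℝ))), ?_⟩
  have e : ∀ y, LinearMap.toContinuousLinearMap ((l : (Fin d → ℝ) →ₗ[ℝ] ℝ).comp
    (T.symm : (Fin d → ℝ) →ₗ[ℝ] (Fin d → ℝ))) (T y) = l y := by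
    intro y
    show l (T.symm (T y)) = l y
    rw [LinearEquiv.symm_apply_apply]
  rw [hl]
  ext y
  constructor
  · rintro ⟨x, ⟨hx1, hx2⟩, rfl⟩
    refine ⟨⟨x, hx1, rfl⟩, ?_⟩
    rintro _ ⟨z, hz, rfl⟩
    rw [e, e]
    exact hx2 z hz
  · rintro ⟨⟨x, hx1, rfl⟩, hx2⟩
    refine ⟨x, ⟨hx1, ?_⟩, rfl⟩
    intro z hz
    have := hx2 (T z) ⟨z, hz, rfl⟩
    rwa [e, e] at this

lemma trivial_sym (T : (Fin 7 → ℝ) ≃ₗ[ℝ] (Fin 7 → ℝ))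
    (hT : T '' (convexHull ℝ (Set.range p)) = convexHull ℝ (Set.range p)) :
    T = LinearEquiv.refl ℝ _ := by
  have h1 : ∀ i, ∃ j, p j = T (p i) := by
    intro i
    have h2 := image_extremePoints (𝕜 := ℝ) T (convexHull ℝ (Set.range p))
    rw [hT, vertices] at h2
    have h3 : T (p i) ∈ T '' Set.range p := ⟨_, ⟨i, rfl⟩, rfl⟩
    rw [h2] at h3
    exact h3
  choose s hs using h1
  have hsinj : Function.Injective s := by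
    intro i j hij
    apply p_inj
    apply T.injective
    rw [← hs, ← hs, hij]
  let π : Equiv.Perm (Fin 22) := Equiv.ofBijective s (Finite.injective_iff_bijective.1 hsinj)
  have hπ : ∀ i, p (π i) = T (p i) := hs
  have hedge : ∀ i j, adjG i j = true → adjG (π i) (π j) = true := by
    intro i j hij
    rw [← edge_iff] at hij ⊢
    refine ⟨fun h => hij.1 (π.injective h), ?_⟩
    have h4 := exposed_image T hij.2
    rw [hT] at h4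
    have h5 : T '' segment ℝ (p i) (p j) = segment ℝ (p (π i)) (p (π j)) := by
      rw [hπ, hπ]
      exact image_segment ℝ (T : (Fin 7 → ℝ) →ₗ[ℝ] (Fin 7 → ℝ)).toAffineMap (p i) (p j)
    rwa [h5] at h4
  have hcount : ∀ i j, adjG (π i) (π j) = adjG i j := by
    -- a bijection of the finite set of edges
    let S : Finset (Fin 22 × Fin 22) := Finset.univ.filter fun q => adjG q.1 q.2 = true
    have hmap : S.image (fun q => (π q.1, π q.2)) ⊆ S := by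
      intro q hq
      obtain ⟨q', hq', rfl⟩ := Finset.mem_image.1 hq
      exact Finset.mem_filter.2 ⟨Finset.mem_univ _, hedge _ _ (Finset.mem_filter.1 hq').2⟩
    have hinj : Function.Injective (fun q : Fin 22 × Fin 22 => (π q.1, π q.2)) := by
      intro q q' h
      simp only [Prod.mk.injEq] at h
      exact Prod.ext (π.injective h.1) (π.injective h.2)
    have heq : S.image (fun q => (π q.1, π q.2)) = S := by
      apply Finset.eq_of_subset_of_card_le hmap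
      rw [Finset.card_image_of_injective _ hinj]
    intro i j
    by_cases h : adjG i j = true
    · rw [h, hedge i j h]
    · have h6 : adjG (π i) (π j) ≠ true := by
        intro h7
        have h8 : (π i, π j) ∈ S := Finset.mem_filter.2 ⟨Finset.mem_univ _, h7⟩
        rw [← heq] at h8
        obtain ⟨q, hq, hq'⟩ := Finset.mem_image.1 h8
        have h9 : q = (i, j) := hinj hq'
        rw [h9] at hq
        exact h (Finset.mem_filter.1 hq).2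
      rw [Bool.eq_false_iff.2 h, Bool.eq_false_iff.2 h6]
  have hid := rigid π hcount
  have hfix : ∀ k, T (Pi.single k 1) = Pi.single k 1 := by
    intro k
    have h10 : p (fr k) = Pi.single k 1 := by
      funext l
      simp only [p, pt, fr_id, Pi.single_apply]
      split_ifs <;> simp
    rw [← h10, ← hπ, hid]
  apply LinearEquiv.toLinearMap_injective
  apply LinearMap.pi_ext'
  intro k
  ext l
  simp only [LinearMap.comp_apply, LinearMap.coe_single, LinearEquiv.coe_coe]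
  rw [hfix]
  rfl

/-- There is a spectral polytope whose only linear symmetry is the identity. -/
theorem result : ∃ (n d : ℕ) (p : Fin n → Fin d → ℝ), IsSpectral p ∧
    ∀ T : (Fin d → ℝ) ≃ₗ[ℝ] (Fin d → ℝ),
      T '' (convexHull ℝ (Set.range p)) = convexHull ℝ (Set.range p) →
      T = LinearEquiv.refl ℝ (Fin d → ℝ) :=
  ⟨22, 7, p, ⟨p_inj, vertices, eigen⟩, trivial_sym⟩

end Pool.Agent.Results.MP_c2491a_co.Asymmetric
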